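import Pool.Agent.Helper77.HY.St

/-!
# Project HY, module EUL
-/

set_option autoImplicit false

namespace Pool.Agent.Helper84.HY.EUL

open Pool.Agent.Helper35.PM Pool.Agent.Helper77.HY

private theorem hsplit (W : Type) [Fintype W] (H : SimpleGraph W) (hc : ¬ H.Connected)
    (h0 : 0 < Fintype.card W) : ∃ A : Finset W, A.Nonempty ∧ A.card < Fintype.card W ∧
      ∀ a ∈ A, ∀ b, b ∉ A → ¬ H.Adj a b := by
  classical
  have hne : Nonempty W := Fintype.card_pos_iff.1 h0
  have hp : ¬ H.Preconnected := fun h => hc (SimpleGraph.connected_iff _ |>.2 ⟨h, hne⟩)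
  unfold SimpleGraph.Preconnected at hp
  push Not at hp
  obtain ⟨u, v, huv⟩ := hp
  refine ⟨Finset.univ.filter (fun w => H.Reachable u w), ⟨u, ?_⟩, ?_, ?_⟩
  · simp
  · apply Finset.card_lt_univ_of_notMem (x := v)
    simpa using huv
  · intro a ha b hb hab
    rw [Finset.mem_filter] at ha hb
    exact hb ⟨Finset.mem_univ _, ha.2.trans hab.reachable⟩

private theorem hmain (hCnt : StCnt) (hEc : StEc) (hSub : StSub) :
    ∀ (n : ℕ) (W : Type) [Fintype W] (H : SimpleGraph W), Fintype.card W = n → Planar H → TF H →
    (3 ≤ n → eN H Finset.univ + 4 ≤ 2 * n) ∧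
    (4 ≤ n → ¬ H.Connected → eN H Finset.univ + 6 ≤ 2 * n) := by
  obtain ⟨_, hadd, hall, hind⟩ := hCnt
  have hsmall : ∀ (W : Type) [Fintype W] (H : SimpleGraph W),
      eN H Finset.univ ≤ (Fintype.card W).choose 2 := by
    intro W _ H
    classical
    rw [hall W H]
    exact H.card_edgeFinset_le_card_choose_two
  intro n
  induction n using Nat.strong_induction_on with
  | _ n ih =>
    intro W _ H hn hP hT
    -- the bound for a proper subset
    have hpart : ∀ U : Finset W, U.card < n →
        (U.card = 1 → eN H U = 0) ∧ (U.card = 2 → eN H U ≤ 1) ∧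
        (3 ≤ U.card → eN H U + 4 ≤ 2 * U.card) := by
      intro U hU
      have hcard : Fintype.card ((U : Set W) : Type) = U.card := by
        simp
      have e1 := hind W H U
      have e2 := hsmall _ (H.induce (U : Set W))
      rw [e1, hcard] at e2
      have hP' : Planar (H.induce (U : Set W)) :=
        hSub W _ H (H.induce (U : Set W)) Subtype.val hP Subtype.val_injective
          (fun w w' h => h)
      have hT' : TF (H.induce (U : Set W)) := fun a b c h1 h2 h3 => hT a b c h1 h2 h3
      have e3 := (ih U.card hU _ (H.induce (U : Set W)) hcard hP' hT').1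
      rw [e1] at e3
      refine ⟨fun h => ?_, fun h => ?_, e3⟩
      · rw [h] at e2
        simpa using e2
      · rw [h] at e2
        simpa using e2
    have hsp : ¬ H.Connected → 3 ≤ n → ∃ A B : Finset W, 0 < A.card ∧ 0 < B.card ∧
        A.card + B.card = n ∧ eN H Finset.univ = eN H A + eN H B := by
      intro hc h3
      classical
      obtain ⟨A, hA, hA1, hA2⟩ := hsplit W H hc (by omega)
      refine ⟨A, Aᶜ, Finset.card_pos.2 hA, ?_, ?_, ?_⟩
      · rw [Finset.card_compl]
        omega
      · rw [Finset.card_compl]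
        omega
      · have e := hadd W H A Aᶜ disjoint_compl_right
        rw [Finset.union_compl] at e
        rw [e]
        have e0 : ∑ t ∈ Aᶜ, dg H t A = 0 := by
          refine Finset.sum_eq_zero fun t ht => ?_
          unfold dg
          have : {u : W | u ∈ A ∧ H.Adj t u} = ∅ := by
            ext u
            simp only [Set.mem_setOf_eq, Set.mem_empty_iff_false, iff_false, not_and]
            intro hu hadj
            exact hA2 u hu t (Finset.mem_compl.1 ht) hadj.symm
          rw [this, Set.ncard_empty]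
        rw [e0, add_zero]
    by_cases hc : H.Connected
    · refine ⟨fun h3 => ?_, fun _ hc' => absurd hc hc'⟩
      have := hEc W H hP hT hc (by omega)
      omega
    · refine ⟨fun h3 => ?_, fun h4 _ => ?_⟩
      · obtain ⟨A, B, hA, hB, hAB, he⟩ := hsp hc h3
        obtain ⟨a1, a2, a3⟩ := hpart A (by omega)
        obtain ⟨b1, b2, b3⟩ := hpart B (by omega)
        rw [he]
        rcases (by omega : A.card = 1 ∨ A.card = 2 ∨ 3 ≤ A.card) with ha | ha | ha <;>
        rcases (by omega : B.card = 1 ∨ B.card = 2 ∨ 3 ≤ B.card) with hb | hb | hb <;>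
        simp only [ha, hb, forall_const] at a1 a2 a3 b1 b2 b3 <;> omega
      · obtain ⟨A, B, hA, hB, hAB, he⟩ := hsp hc (by omega)
        obtain ⟨a1, a2, a3⟩ := hpart A (by omega)
        obtain ⟨b1, b2, b3⟩ := hpart B (by omega)
        rw [he]
        rcases (by omega : A.card = 1 ∨ A.card = 2 ∨ 3 ≤ A.card) with ha | ha | ha <;>
        rcases (by omega : B.card = 1 ∨ B.card = 2 ∨ 3 ≤ B.card) with hb | hb | hb <;>
        simp only [ha, hb, forall_const] at a1 a2 a3 b1 b2 b3 <;> omega

theorem main (hCnt : StCnt) (hEc : StEc) (hSub : StSub) : StEub := by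
  intro W _ H hP hT
  exact hmain hCnt hEc hSub _ W H rfl hP hT

end Pool.Agent.Helper84.HY.EUL
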